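import Pool.Agent.helper72.ODK.Spec

set_option autoImplicit false

namespace Pool.Agent.helper72.UP

open Finset

theorem ASW_le {x y : ℝ} (hy : 0 ≤ y) (h : x ^ 2 ≤ y ^ 2) : x ≤ y := by
  by_contra hc
  push Not at hc
  nlinarith

theorem ASW (h : FIW_stmt) : ASW_stmt := by
  refine ⟨⌈Real.exp 1430⌉₊, ?_⟩
  intro n hn K hK1 hK2
  have hN : Real.exp 1430 ≤ (n : ℝ) := le_trans (Nat.le_ceil _) (by exact_mod_cast hn)
  have hN0 : (0 : ℝ) < n := lt_of_lt_of_le (Real.exp_pos _) hN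
  obtain ⟨l, hl⟩ : ∃ l, l = Real.log n := ⟨_, rfl⟩
  have hl1 : 1430 ≤ l := by
    rw [hl, Real.le_log_iff_exp_le hN0]
    exact hN
  have hNl : (n : ℝ) = Real.exp l := by rw [hl, Real.exp_log hN0]
  have hqe : 1 + l + l ^ 2 / 2 ≤ (n : ℝ) := by
    rw [hNl]
    exact Real.quadratic_le_exp_of_nonneg (by linarith)
  have hbig : (1000000 : ℝ) ≤ n := by nlinarith
  have h4 : 4 * l ≤ n := by nlinarith
  rw [← hl] at hK2
  obtain ⟨S, hS⟩ : ∃ S, S = Real.sqrt (n * l) := ⟨_, rfl⟩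
  rw [← hS] at hK2
  have hS0 : 0 ≤ S := by
    rw [hS]
    exact Real.sqrt_nonneg _
  have hS2 : S ^ 2 = n * l := by
    rw [hS, Real.sq_sqrt (mul_nonneg hN0.le (by linarith))]
  have hSN : S ≤ n / 2 := by
    apply ASW_le (by linarith)
    rw [hS2]
    nlinarith
  obtain ⟨q, hq⟩ : ∃ q, q = Real.exp (l / 2) := ⟨_, rfl⟩
  have hq0 : 0 < q := by
    rw [hq]
    exact Real.exp_pos _
  have hq2 : q ^ 2 = n := by
    rw [hq, sq, ← Real.exp_add, hNl]
    congr 1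
    ring
  have hq3 : 1000 ≤ q := by
    apply ASW_le hq0.le
    rw [hq2]
    linarith
  obtain ⟨r, hr⟩ : ∃ r, r = Nat.sqrt (n / 2) := ⟨_, rfl⟩
  have hr2 : r * r ≤ n / 2 := by
    rw [hr]
    exact Nat.sqrt_le _
  have hrq : (r : ℝ) ≤ q := by
    apply ASW_le hq0.le
    rw [hq2, sq]
    have h1 : r * r ≤ n := le_trans hr2 (Nat.div_le_self _ _)
    exact_mod_cast h1
  have hn6 : 1000000 ≤ n := by exact_mod_cast hbig
  obtain ⟨m, hm⟩ : ∃ m, m = n / 2 / 2 := ⟨_, rfl⟩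
  have hm1 : n ≤ 4 * m + 3 := by omega
  obtain ⟨m', hm'⟩ : ∃ m', m' = (n - 1) / 2 / 2 := ⟨_, rfl⟩
  have hm1' : n ≤ 4 * m' + 4 := by omega
  obtain ⟨a, ha⟩ : ∃ a, a = (n - 1) / 2 := ⟨_, rfl⟩
  have ha1 : n ≤ 2 * a + 2 := by omega
  obtain ⟨y, hy⟩ : ∃ y, y = K + 1 - m := ⟨_, rfl⟩
  obtain ⟨y', hy'⟩ : ∃ y', y' = K - 1 + 2 * (r + 1) - m' := ⟨_, rfl⟩
  have rm : (n : ℝ) ≤ 4 * m + 3 := by exact_mod_cast hm1
  have rm' : (n : ℝ) ≤ 4 * m' + 4 := by exact_mod_cast hm1'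
  have ra : (n : ℝ) ≤ 2 * a + 2 := by exact_mod_cast ha1
  push_cast at hK2
  obtain ⟨D, hD⟩ : ∃ D, D = S / 16 + 2 * q + 2 := ⟨_, rfl⟩
  have hyD : (y : ℝ) ≤ D := by
    rcases (show y + m ≤ K + 1 ∨ y = 0 by omega) with h1 | h1
    · have h2 : (y : ℝ) + m ≤ K + 1 := by exact_mod_cast h1
      rw [hD]
      linarith
    · rw [h1, hD]
      push_cast
      linarith
  have hyD' : (y' : ℝ) ≤ D := by
    rcases (show y' + m' + 1 ≤ K + 2 * (r + 1) ∨ y' = 0 by omega) with h1 | h1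
    · have h2 : (y' : ℝ) + m' + 1 ≤ K + 2 * (r + 1) := by exact_mod_cast h1
      rw [hD]
      linarith
    · rw [h1, hD]
      push_cast
      linarith
  have h4D : 4 * D ≤ n / 4 := by
    rw [hD]
    nlinarith
  have hD0 : 0 ≤ D := by
    rw [hD]
    linarith
  have hDD : D ^ 2 ≤ n * (l / 128 + 32) := by
    have e1 : D ^ 2 ≤ 2 * (S / 16) ^ 2 + 2 * (2 * q + 2) ^ 2 := by
      rw [hD]
      nlinarith [sq_nonneg (S / 16 - (2 * q + 2))]
    have e2 : (2 * q + 2) ^ 2 ≤ 16 * n := by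
      rw [← hq2]
      nlinarith
    have e3 : 2 * (S / 16) ^ 2 = n * l / 128 := by
      rw [div_pow, hS2]
      ring
    rw [e3] at e1
    linarith
  have hA : 4 * y ≤ m + 1 := by
    have e : (4 : ℝ) * y ≤ m + 1 := by linarith
    exact_mod_cast e
  have hB : 4 * y' ≤ m' + 1 := by
    have e : (4 : ℝ) * y' ≤ m' + 1 := by linarith
    exact_mod_cast e
  have hKn : K ≤ n / 2 := by
    have e : (2 : ℝ) * K ≤ n - 2 := by linarith
    have e2 : 2 * K + 2 ≤ n := by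
      have : (2 : ℝ) * K + 2 ≤ n := by linarith
      exact_mod_cast this
    omega
  have e1 : 2 * (y : ℝ) ^ 2 / ((m : ℝ) + 1) ≤ l / 16 + 256 := by
    rw [div_le_iff₀ (by positivity)]
    have h1 : (y : ℝ) ^ 2 ≤ D ^ 2 := pow_le_pow_left₀ (by positivity) hyD 2
    have h2 : (n : ℝ) / 4 * (l / 16 + 256) ≤ (m + 1) * (l / 16 + 256) :=
      mul_le_mul_of_nonneg_right (by linarith) (by linarith)
    linarith
  have e2 : 2 * (y' : ℝ) ^ 2 / ((m' : ℝ) + 1) ≤ l / 16 + 256 := by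
    rw [div_le_iff₀ (by positivity)]
    have h1 : (y' : ℝ) ^ 2 ≤ D ^ 2 := pow_le_pow_left₀ (by positivity) hyD' 2
    have h2 : (n : ℝ) / 4 * (l / 16 + 256) ≤ (m' + 1) * (l / 16 + 256) :=
      mul_le_mul_of_nonneg_right (by linarith) (by linarith)
    linarith
  have hE : Real.exp (-(l / 8) - 512) ≤
      Real.exp (-(2 * (y : ℝ) ^ 2 / ((m : ℝ) + 1)) - 2 * (y' : ℝ) ^ 2 / ((m' : ℝ) + 1)) := by
    rw [Real.exp_le_exp]
    linarith
  have ha0 : (0 : ℝ) ≤ a := Nat.cast_nonneg _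
  have hs : q / 2 ≤ Real.sqrt a := by
    apply ASW_le (Real.sqrt_nonneg _)
    rw [Real.sq_sqrt ha0, div_pow, hq2]
    linarith
  have hs2 : Real.sqrt a * Real.sqrt a = a := Real.mul_self_sqrt ha0
  have hprod : 12 < Real.sqrt a * Real.exp (-(l / 8) - 512) := by
    have h1 : q / 2 * Real.exp (-(l / 8) - 512) ≤ Real.sqrt a * Real.exp (-(l / 8) - 512) :=
      mul_le_mul_of_nonneg_right hs (Real.exp_pos _).le
    have h2 : q * Real.exp (-(l / 8) - 512) = Real.exp (3 * l / 8 - 512) := by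
      rw [hq, ← Real.exp_add]
      congr 1
      ring
    have h3 := Real.add_one_le_exp (3 * l / 8 - 512)
    linarith
  have hfin : 12 * Real.sqrt a < ((a : ℝ) + 2) *
      Real.exp (-(2 * (y : ℝ) ^ 2 / ((m : ℝ) + 1)) - 2 * (y' : ℝ) ^ 2 / ((m' : ℝ) + 1)) := by
    have hs0 : 0 < Real.sqrt a := by linarith
    have h1 : 12 * Real.sqrt a < Real.sqrt a * Real.exp (-(l / 8) - 512) * Real.sqrt a :=
      mul_lt_mul_of_pos_right hprod hs0
    have h2 : Real.sqrt a * Real.exp (-(l / 8) - 512) * Real.sqrt a = a * Real.exp (-(l / 8) - 512) := by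
      rw [mul_right_comm, hs2]
    have h3 : (a : ℝ) * Real.exp (-(l / 8) - 512) ≤ ((a : ℝ) + 2) * Real.exp (-(l / 8) - 512) :=
      mul_le_mul_of_nonneg_right (by linarith) (Real.exp_pos _).le
    have h4 := mul_le_mul_of_nonneg_left hE (show (0 : ℝ) ≤ (a : ℝ) + 2 by linarith)
    linarith
  have hgo := h n K (by omega) hK1 hKn
  rw [← hr, ← hm', ← hm, ← ha, ← hy, ← hy'] at hgo
  exact hgo hA hB hfin

end Pool.Agent.helper72.UP
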