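import Pool.Agent.helper72.ODK.Spec2

set_option autoImplicit false

namespace Pool.Agent.helper72.UP

open Finset

theorem MVO_mono (N j : ℕ) (h : 2 * j + 1 ≤ N) : N.choose j ≤ N.choose (j + 1) := by
  have h1 := Nat.choose_succ_right_eq N j
  have h2 : j + 1 ≤ N - j := by omega
  have h3 : N.choose j * (j + 1) ≤ N.choose (j + 1) * (j + 1) := by
    rw [h1]
    exact Nat.mul_le_mul_left _ h2
  exact Nat.le_of_mul_le_mul_right h3 (Nat.succ_pos j)

theorem MVO_shift (g : ℕ → ℕ) (K : ℕ) : ∑ i ∈ Icc 1 K, g i = ∑ j ∈ range K, g (j + 1) := by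
  induction K with
  | zero => simp
  | succ K ih => rw [sum_Icc_succ_top (by omega), ih, sum_range_succ]

theorem MVO_half (N h : ℕ) (hN : N ≤ 2 * h) (hh : h ≤ N) :
    (2 * N).choose N ≤ 1 + ∑ j ∈ range h, N.choose (j + 1) ^ 2 + ∑ j ∈ range h, N.choose j ^ 2 := by
  rw [← Nat.sum_range_choose_sq N]
  have e1 : N + 1 = h + (N + 1 - h) := by omega
  have e2 : ∑ j ∈ range (N + 1), N.choose j ^ 2 =
      ∑ j ∈ range h, N.choose j ^ 2 + ∑ j ∈ range (N + 1 - h), N.choose (h + j) ^ 2 := by
    have := sum_range_add (fun j => N.choose j ^ 2) h (N + 1 - h)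
    rw [← e1] at this
    exact this
  have e3 : ∑ j ∈ range (N + 1 - h), N.choose (h + j) ^ 2 = ∑ j ∈ range (N + 1 - h), N.choose j ^ 2 := by
    rw [← sum_range_reflect]
    apply sum_congr rfl
    intro j hj
    have hj' := mem_range.mp hj
    have : h + (N + 1 - h - 1 - j) = N - j := by omega
    rw [this, Nat.choose_symm (by omega)]
  have e4 : ∑ j ∈ range (N + 1 - h), N.choose j ^ 2 ≤ ∑ j ∈ range (h + 1), N.choose j ^ 2 := by
    apply sum_le_sum_of_subset
    intro j hj
    rw [mem_range] at hj ⊢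
    omega
  have e5 : ∑ j ∈ range (h + 1), N.choose j ^ 2 = ∑ j ∈ range h, N.choose (j + 1) ^ 2 + 1 := by
    rw [sum_range_succ']
    simp
  omega

theorem MVO : MVO_stmt := by
  intro N K hN h1 h2
  obtain ⟨h, hh⟩ : ∃ h, h = (N + 1) / 2 := ⟨_, rfl⟩
  have hv : VV (2 * N + 1) (2 * K + 1) = ∑ j ∈ range K, (N + 1).choose (j + 1) * N.choose (j + 1) := by
    unfold VV
    have e1 : (2 * K + 1) / 2 = K := by omega
    rw [e1, MVO_shift]
    apply sum_congr rfl
    intro j _
    unfold uu
    have e2 : (2 * N + 1 + 1) / 2 = N + 1 := by omega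
    have e3 : (2 * N + 1) / 2 = N := by omega
    rw [e2, e3]
  rw [hv]
  have a1 : (2 * N).choose (2 * K) ≤ (2 * N).choose N := by
    have := Nat.choose_le_centralBinom (2 * K) N
    rwa [Nat.centralBinom_eq_two_mul_choose] at this
  have a2 := MVO_half N h (by omega) (by omega)
  have a3 : ∑ j ∈ range h, (N + 1).choose (j + 1) * N.choose (j + 1) ≤
      ∑ j ∈ range K, (N + 1).choose (j + 1) * N.choose (j + 1) := by
    apply sum_le_sum_of_subset
    intro j hj
    rw [mem_range] at hj ⊢
    omega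
  have a4 : ∑ j ∈ range h, (N.choose (j + 1) ^ 2 + N.choose j ^ 2) <
      ∑ j ∈ range h, (N + 1).choose (j + 1) * N.choose (j + 1) := by
    apply sum_lt_sum
    · intro j hj
      have hj' := mem_range.mp hj
      have b1 := MVO_mono N j (by omega)
      have b2 := Nat.mul_le_mul_left (N.choose j) b1
      rw [Nat.choose_succ_succ]
      simp only [Nat.succ_eq_add_one] at *
      nlinarith
    · refine ⟨0, mem_range.mpr (by omega), ?_⟩
      simp
      nlinarith
  rw [sum_add_distrib] at a4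
  omega

end Pool.Agent.helper72.UP
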